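import Pool.Agent.H28.GUG.Targets
import Pool.Agent.H35.GUF.F0

/-!
# MP_c59857_nt, row F0G: the final theorem without obstruction on progressions, general linear forms

This is an adaptation of the file of the row F0 (helper35) to the linear forms `a₀ n + b₀ . t`.
-/

set_option autoImplicit false

open Finset Filter Topology

namespace Pool.Agent.H18.GUG

open Pool.Agent.H31.DP Pool.Agent.H31.GUF Pool.Agent.H28.GUG Pool.Agent.H35.GUF
open Pool.Agent.H91.LF (lz Bdd Mean sqw)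
open Pool.Agent.H24.T2 (Pset box cub)

/-- the sum with a periodic weight -/
theorem weight_le {q : ℕ} (hq : 0 < q) (u : ℕ → ℂ) (hu : ∀ n, u (n + q) = u n)
    (hu1 : ∀ n, ‖u n‖ ≤ 1) (g W : ℤ → ℂ) (hg : ∀ m, m < 1 → g m = 0)
    (hW : ∀ n : ℕ, W (n : ℤ) = u n) (N : ℕ) (a₀ s : ℤ) (P : ℤ → ℂ) :
    ‖∑ n ∈ Finset.Icc (1 : ℤ) N, g (a₀ * n + s) * W (a₀ * n + s) * P n‖ ≤
      ∑ j ∈ Finset.range q, ‖∑ n ∈ Finset.Icc (1 : ℤ) N,
        g (a₀ * n + s) * ee (n * (a₀ * ((j : ℝ) / q))) * P n‖ := by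
  obtain ⟨a, ha, hau⟩ := expand_bd hq u hu hu1
  have h1 : ∑ n ∈ Finset.Icc (1 : ℤ) N, g (a₀ * n + s) * W (a₀ * n + s) * P n =
      ∑ j ∈ Finset.range q, (a j * ee (s * ((j : ℝ) / q))) * ∑ n ∈ Finset.Icc (1 : ℤ) N,
        g (a₀ * n + s) * ee (n * (a₀ * ((j : ℝ) / q))) * P n := by
    have h2 : ∀ n ∈ Finset.Icc (1 : ℤ) N, g (a₀ * n + s) * W (a₀ * n + s) * P n =
        ∑ j ∈ Finset.range q, (a j * ee (s * ((j : ℝ) / q))) *
          (g (a₀ * n + s) * ee (n * (a₀ * ((j : ℝ) / q))) * P n) := by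
      intro n _
      by_cases h3 : a₀ * n + s < 1
      · rw [hg _ h3]
        simp
      · have h4 : a₀ * n + s = (((a₀ * n + s).toNat : ℕ) : ℤ) := by omega
        have h5 : W (a₀ * n + s) = ∑ j ∈ Finset.range q, a j *
            (ee (n * (a₀ * ((j : ℝ) / q))) * ee (s * ((j : ℝ) / q))) := by
          rw [h4, hW, hau]
          refine Finset.sum_congr rfl fun j _ => ?_
          rw [← Pool.Agent.H3.DP.ee_add]
          congr 2
          have h6 : (((a₀ * n + s).toNat : ℕ) : ℝ) = (((a₀ * n + s : ℤ)) : ℝ) := by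
            have : (((a₀ * n + s).toNat : ℕ) : ℤ) = a₀ * n + s := h4.symm
            exact_mod_cast this
          rw [h6]
          push_cast
          ring
        rw [h5, Finset.mul_sum, Finset.sum_mul]
        refine Finset.sum_congr rfl fun j _ => ?_
        ring
    rw [Finset.sum_congr rfl h2, Finset.sum_comm]
    exact Finset.sum_congr rfl fun j _ => (Finset.mul_sum _ _ _).symm
  rw [h1]
  refine (norm_sum_le _ _).trans (Finset.sum_le_sum fun j _ => ?_)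
  rw [norm_mul, norm_mul, Pool.Agent.H3.DP.norm_ee, mul_one]
  exact mul_le_of_le_one_left (norm_nonneg _) (ha j)

open Classical in
/-- a single scale -/
theorem not_bad {r R J : ℕ} {β : Fin r → ℤ} {δ : Fin r → ℕ} {a₀ : ℤ}
    {b₀ : Fin R → ℤ} {a : Fin J → ℤ} {b : Fin J → Fin R → ℤ} {η : ℝ} {N q : ℕ} (hN : 0 < N) (hη : 0 < η) (hq : 0 < q)
    (u : ℕ → ℂ) (hu : ∀ n, u (n + q) = u n) (hu1 : ∀ n, ‖u n‖ ≤ 1) (g W e : ℤ → ℂ)
    (hg : ∀ m, m < 1 → g m = 0) (hW : ∀ n : ℕ, W (n : ℤ) = u n)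
    (hf : ∀ m, ((fz β δ m : ℝ) : ℂ) = g m * W m + e m)
    (he : ∀ t ∈ box R N, ∑ n ∈ Finset.Icc (1 : ℤ) N, ‖e (a₀ * n + dot b₀ t)‖ ≤ η / 2 * N)
    (hLI : ∀ (F : Fin J → ℤ → ℂ) (θ : ℝ), (∀ j m, ‖F j m‖ ≤ 1) →
      ∑ t ∈ box R N, ‖∑ n ∈ Finset.Icc (1 : ℤ) N, g (a₀ * n + dot b₀ t) * ee (n * θ) *
        ∏ j, F j (a j * n + dot (b j) t)‖ ≤ η ^ 2 / (8 * q) * (N : ℝ) ^ (R + 1)) :
    ¬ BadG β δ a₀ b₀ a b η N := by
  rintro ⟨F, hF, hbad⟩
  have hNr : (0 : ℝ) < N := by exact_mod_cast hN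
  have hqr : (0 : ℝ) < q := by exact_mod_cast hq
  set B := (box R N).filter (fun t => η * N <
      ‖∑ n ∈ Finset.Icc (1 : ℤ) N, ((fz β δ (a₀ * n + dot b₀ t) : ℝ) : ℂ) *
        ∏ j, F j (a j * n + dot (b j) t)‖) with hB
  have h1 : ∀ t ∈ B, η / 2 * N ≤ ∑ j ∈ Finset.range q, ‖∑ n ∈ Finset.Icc (1 : ℤ) N,
      g (a₀ * n + dot b₀ t) * ee (n * (a₀ * ((j : ℝ) / q))) * ∏ j, F j (a j * n + dot (b j) t)‖ := by
    intro t ht
    rw [hB, Finset.mem_filter] at ht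
    have h2 := weight_le hq u hu hu1 g W hg hW N a₀ (dot b₀ t)
      (fun n => ∏ j, F j (a j * n + dot (b j) t))
    refine le_trans ?_ h2
    have h3 : ∑ n ∈ Finset.Icc (1 : ℤ) N, ((fz β δ (a₀ * n + dot b₀ t) : ℝ) : ℂ) *
        ∏ j, F j (a j * n + dot (b j) t) = ∑ n ∈ Finset.Icc (1 : ℤ) N, g (a₀ * n + dot b₀ t) *
          W (a₀ * n + dot b₀ t) * ∏ j, F j (a j * n + dot (b j) t) +
        ∑ n ∈ Finset.Icc (1 : ℤ) N, e (a₀ * n + dot b₀ t) * ∏ j, F j (a j * n + dot (b j) t) := by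
      rw [← Finset.sum_add_distrib]
      refine Finset.sum_congr rfl fun n _ => ?_
      rw [hf]
      ring
    have h4 : ‖∑ n ∈ Finset.Icc (1 : ℤ) N, e (a₀ * n + dot b₀ t) * ∏ j, F j (a j * n + dot (b j) t)‖ ≤
        η / 2 * N := by
      refine (norm_sum_le _ _).trans (le_trans (Finset.sum_le_sum fun n _ => ?_) (he t ht.1))
      rw [norm_mul, norm_prod]
      exact mul_le_of_le_one_right (norm_nonneg _)
        (Finset.prod_le_one (fun _ _ => norm_nonneg _) fun j _ => hF j _)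
    have h5 := ht.2
    rw [h3] at h5
    have h6 := norm_add_le (∑ n ∈ Finset.Icc (1 : ℤ) N, g (a₀ * n + dot b₀ t) *
          W (a₀ * n + dot b₀ t) * ∏ j, F j (a j * n + dot (b j) t))
        (∑ n ∈ Finset.Icc (1 : ℤ) N, e (a₀ * n + dot b₀ t) * ∏ j, F j (a j * n + dot (b j) t))
    linarith
  have h2 : (B.card : ℝ) * (η / 2 * N) ≤ q * (η ^ 2 / (8 * q) * (N : ℝ) ^ (R + 1)) := by
    calc (B.card : ℝ) * (η / 2 * N) = ∑ _t ∈ B, (η / 2 * (N : ℝ)) := by
          rw [Finset.sum_const, nsmul_eq_mul]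
      _ ≤ ∑ t ∈ B, ∑ j ∈ Finset.range q, ‖∑ n ∈ Finset.Icc (1 : ℤ) N,
          g (a₀ * n + dot b₀ t) * ee (n * (a₀ * ((j : ℝ) / q))) * ∏ j, F j (a j * n + dot (b j) t)‖ :=
          Finset.sum_le_sum h1
      _ ≤ ∑ t ∈ box R N, ∑ j ∈ Finset.range q, ‖∑ n ∈ Finset.Icc (1 : ℤ) N,
          g (a₀ * n + dot b₀ t) * ee (n * (a₀ * ((j : ℝ) / q))) * ∏ j, F j (a j * n + dot (b j) t)‖ :=
          Finset.sum_le_sum_of_subset_of_nonneg (Finset.filter_subset _ _)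
            fun _ _ _ => Finset.sum_nonneg fun _ _ => norm_nonneg _
      _ = ∑ j ∈ Finset.range q, ∑ t ∈ box R N, ‖∑ n ∈ Finset.Icc (1 : ℤ) N,
          g (a₀ * n + dot b₀ t) * ee (n * (a₀ * ((j : ℝ) / q))) * ∏ j, F j (a j * n + dot (b j) t)‖ :=
          Finset.sum_comm
      _ ≤ ∑ _j ∈ Finset.range q, η ^ 2 / (8 * q) * (N : ℝ) ^ (R + 1) :=
          Finset.sum_le_sum fun j _ => hLI F _ hF
      _ = q * (η ^ 2 / (8 * q) * (N : ℝ) ^ (R + 1)) := by
          rw [Finset.sum_const, Finset.card_range, nsmul_eq_mul]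
  have h3 : q * (η ^ 2 / (8 * q) * (N : ℝ) ^ (R + 1)) = (η / 4 * (N : ℝ) ^ R) * (η / 2 * N) := by
    field_simp
    ring
  rw [h3] at h2
  have h4 : (B.card : ℝ) ≤ η / 4 * (N : ℝ) ^ R := le_of_mul_le_mul_right h2 (by positivity)
  have h5 : 0 < (N : ℝ) ^ R := by positivity
  nlinarith

/-- the error terms -/
theorem error_le (C N H : ℕ) (a₀ s : ℤ) (ha₀ : a₀ ≠ 0) (φ : ℤ → ℝ) (E : ℝ) (hφ : ∀ m, 0 ≤ φ m)
    (hs : |s| + |a₀| * N ≤ ((C * N : ℕ) : ℤ)) (h1 : ∀ m, m < 1 → φ m ≤ 1)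
    (h0 : ∀ m, m ≤ -(H : ℤ) → φ m = 0)
    (hE : ∑ n ∈ Finset.Icc 1 (C * N), φ (n : ℤ) ≤ E) :
    ∑ n ∈ Finset.Icc (1 : ℤ) N, φ (a₀ * n + s) ≤ E + H := by
  classical
  have e1 : ∑ n ∈ Finset.Icc (1 : ℤ) N, φ (a₀ * n + s) =
      ∑ m ∈ (Finset.Icc (1 : ℤ) N).image (fun n => a₀ * n + s), φ m := by
    rw [Finset.sum_image]
    intro a _ b _ hab
    have h5 : a₀ * a = a₀ * b := by
      have h6 : a₀ * a + s = a₀ * b + s := hab
      omega
    exact mul_left_cancel₀ ha₀ h5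
  rw [e1]
  have e2 : (Finset.Icc (1 : ℤ) N).image (fun n => a₀ * n + s) ⊆
      Finset.Icc (1 : ℤ) ((C * N : ℕ) : ℤ) ∪ Finset.Icc (-((C * N : ℕ) : ℤ)) 0 := by
    intro m hm
    obtain ⟨n, hn, rfl⟩ := Finset.mem_image.1 hm
    rw [Finset.mem_Icc] at hn
    rw [Finset.mem_union, Finset.mem_Icc, Finset.mem_Icc]
    have h3 := neg_abs_le s
    have h4 := le_abs_self s
    have h5 : |a₀ * n| ≤ |a₀| * N := by
      rw [abs_mul]
      refine mul_le_mul_of_nonneg_left ?_ (abs_nonneg _)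
      rw [abs_of_pos (by omega)]
      exact hn.2
    have h6 := neg_abs_le (a₀ * n)
    have h7 := le_abs_self (a₀ * n)
    omega
  refine (Finset.sum_le_sum_of_subset_of_nonneg e2 fun m _ _ => hφ m).trans ?_
  rw [Finset.sum_union (by
    rw [Finset.disjoint_left]
    intro m hm hm'
    rw [Finset.mem_Icc] at hm hm'
    omega)]
  rw [sum_Icc_int]
  refine add_le_add hE ?_
  calc ∑ m ∈ Finset.Icc (-((C * N : ℕ) : ℤ)) 0, φ m
      ≤ ∑ m ∈ Finset.Icc (-((C * N : ℕ) : ℤ)) 0, (if -(H : ℤ) < m then (1 : ℝ) else 0) := by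
        refine Finset.sum_le_sum fun m hm => ?_
        rw [Finset.mem_Icc] at hm
        split_ifs with h
        · exact h1 m (by omega)
        · exact (h0 m (by omega)).le
    _ = (((Finset.Icc (-((C * N : ℕ) : ℤ)) 0).filter (fun m => -(H : ℤ) < m)).card : ℝ) := by
        rw [Finset.sum_boole]
    _ ≤ H := by
        have h2 : (Finset.Icc (-((C * N : ℕ) : ℤ)) 0).filter (fun m => -(H : ℤ) < m) ⊆
            Finset.Ioc (-(H : ℤ)) 0 := by
          intro m hm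
          rw [Finset.mem_filter, Finset.mem_Icc] at hm
          rw [Finset.mem_Ioc]
          omega
        have h3 := Finset.card_le_card h2
        rw [Int.card_Ioc] at h3
        have h4 : ((Finset.Icc (-((C * N : ℕ) : ℤ)) 0).filter (fun m => -(H : ℤ) < m)).card ≤ H := by
          omega
        exact_mod_cast h4

open Classical in
theorem pf_F0G (hCH : F_CH) (hLI : G_LI) (hMU : Pool.Agent.H31.DP.StatementMU) : G_F0 := by
  intro r h δ R J a₀ b₀ a b η ρ hδ ha₀ hb hη hρ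
  obtain ⟨l, ⟨e⟩⟩ : ∃ l : ℕ, Nonempty ({i : Fin r // Odd (δ i)} ≃ Fin l) :=
    ⟨_, ⟨Fintype.equivFin _⟩⟩
  rcases Nat.eq_zero_or_pos l with hl | hl
  · refine ⟨2, by norm_num, fun x y hx hxy => ?_⟩
    have hemp : Finset.univ.filter (fun i => Odd (δ i)) = ∅ := by
      rw [Finset.filter_eq_empty_iff]
      intro i _ hi
      have := (e ⟨i, hi⟩).2
      omega
    have h1 : (Finset.Icc x y).filter (fun N : ℕ => NoObs (fun i => (h i : ℤ)) δ 2 N ∧
        BadG (fun i => (h i : ℤ)) δ a₀ b₀ a b η N) = ∅ := by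
      rw [Finset.filter_eq_empty_iff]
      rintro N hN ⟨hno, -⟩
      rw [Finset.mem_Icc] at hN
      have h2 := hno 1 0 (2 * N) le_rfl (by norm_num) le_rfl
      have h3 : (Finset.Icc 1 (2 * N)).filter (fun n : ℕ => n ≡ 0 [MOD 1]) =
          Finset.Icc 1 (2 * N) := by
        refine Finset.filter_true_of_mem fun n _ => ?_
        exact Nat.modEq_one
      rw [h3] at h2
      have h4 : ∀ n : ℕ, Fo (fun i => (h i : ℤ)) δ (n : ℤ) = 1 := by
        intro n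
        unfold Fo
        rw [hemp, Finset.prod_empty]
      simp only [h4, Finset.sum_const, Nat.card_Icc, add_tsub_cancel_right, nsmul_eq_mul,
        mul_one] at h2
      have h5 : (1 : ℝ) ≤ N := by
        have : 1 ≤ N := by omega
        exact_mod_cast this
      rw [abs_of_nonneg (Nat.cast_nonneg _)] at h2
      push_cast at h2
      linarith
    rw [h1, Finset.sum_empty]
    have hx0 : (0 : ℝ) < x := by exact_mod_cast hx
    have h6 : (1 : ℝ) ≤ (y : ℝ) / x := by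
      rw [le_div_iff₀ hx0, one_mul]
      have : x ≤ y := by omega
      exact_mod_cast this
    exact mul_nonneg hρ.le (Real.log_nonneg h6)
  -- the general case
  have i₀ : Fin r := (e.symm ⟨0, hl⟩).1
  set β : Fin r → ℤ := fun i => (h i : ℤ) with hβ
  obtain ⟨h1, hh1⟩ : ∃ h1 : Fin l → ℕ, h1 = fun j => h (e.symm j).1 := ⟨_, rfl⟩
  have hprod : ∀ m : ℤ, ∏ i ∈ Finset.univ.filter (fun i => Odd (δ i)), lz (m + (h i : ℤ)) =
      FF h1 1 m := by
    intro m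
    have h0 := Pool.Agent.H22.LF.prod_odd (fun i => Odd (δ i)) e (fun i => lz (m + (h i : ℤ)))
    unfold FF
    have h2 : ∏ i' : Fin l, lz (m + (h (e.symm i').1 : ℤ)) =
        ∏ i, lz (m + ((1 : ℕ) : ℤ) * ((h1 i : ℕ) : ℤ)) := by
      refine Finset.prod_congr rfl fun j _ => ?_
      rw [hh1]
      simp
    rw [← h2, ← h0]
  obtain ⟨C, hC⟩ : ∃ C : ℕ, C = 2 * a₀.natAbs + ∑ i, (b₀ i).natAbs := ⟨_, rfl⟩
  have ha₀' : 0 < a₀.natAbs := Int.natAbs_pos.2 ha₀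
  have hC0 : 0 < C := by omega
  have hCr : (0 : ℝ) < C := by exact_mod_cast hC0
  have hCz : 2 * |a₀| + ∑ i, |b₀ i| = (C : ℤ) := by
    rw [hC]
    push_cast
    rfl
  obtain ⟨w, N₀, hw⟩ := hMU r β δ (η / (8 * C)) hδ (by positivity)
  obtain ⟨q, hq⟩ : ∃ q : ℕ, q = w.factorial ^ 2 := ⟨_, rfl⟩
  have hq0 : 0 < q := by
    rw [hq]
    positivity
  have hq0' : (0 : ℝ) < q := by exact_mod_cast hq0
  obtain ⟨ε, hε, N₂, hLI'⟩ := hLI R J C a₀ b₀ a b (η ^ 2 / (8 * q)) ha₀ hb hCz.le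
    (by positivity)
  obtain ⟨K1, hK1, hCH'⟩ := hCH (J + 2) l h1 ε (ρ / (4 * C)) (by omega) hε (by positivity)
  obtain ⟨H, hH⟩ : ∃ H : ℕ, H = ∑ i, h i := ⟨_, rfl⟩
  obtain ⟨N₁, hN₁⟩ : ∃ N₁ : ℕ, N₁ = max (max N₀ N₂) ⌈8 * (H : ℝ) / η⌉₊ := ⟨_, rfl⟩
  -- the functions
  obtain ⟨gr, hgr⟩ : ∃ gr : ℤ → ℝ, gr = fun m => if 1 ≤ m then FF h1 1 m else 0 := ⟨_, rfl⟩
  obtain ⟨g, hg⟩ : ∃ g : ℤ → ℂ, g = fun m => ((gr m : ℝ) : ℂ) := ⟨_, rfl⟩
  obtain ⟨W, hW⟩ : ∃ W : ℤ → ℂ, W = fun m => ((∏ i, sqw w (m + β i) : ℝ) : ℂ) := ⟨_, rfl⟩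
  obtain ⟨er, her⟩ : ∃ er : ℤ → ℂ, er = fun m => ((fz β δ m : ℝ) : ℂ) - g m * W m := ⟨_, rfl⟩
  have hgr0 : ∀ m, m < 1 → gr m = 0 := by
    intro m hm
    rw [hgr]
    simp only
    rw [if_neg (by omega)]
  have hg0 : ∀ m, m < 1 → g m = 0 := by
    intro m hm
    rw [hg]
    simp only
    rw [hgr0 m hm, Complex.ofReal_zero]
  have hg1 : ∀ m, 1 ≤ m → g m = gl h1 m := by
    intro m hm
    rw [hg, hgr]
    simp only
    rw [if_pos hm]
    rfl
  have hgl : ∀ m, ‖gl h1 m‖ ≤ 1 := by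
    intro m
    unfold gl FF
    rw [Complex.norm_real, Real.norm_eq_abs, Finset.abs_prod]
    exact Finset.prod_le_one (fun _ _ => abs_nonneg _) fun _ _ => Pool.Agent.H91.LF.abs_lz_le _
  have hgb : ∀ m, ‖g m‖ ≤ 1 := by
    intro m
    by_cases hm : 1 ≤ m
    · rw [hg1 m hm]
      exact hgl m
    · rw [hg0 m (by omega), norm_zero]
      exact zero_le_one
  have hgrb : ∀ m, |gr m| ≤ 1 := by
    intro m
    have := hgb m
    rw [hg] at this
    simp only [Complex.norm_real, Real.norm_eq_abs] at this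
    exact this
  have hu1 : ∀ n : ℕ, W ((n + q : ℕ) : ℤ) = W (n : ℤ) := by
    intro n
    rw [hW]
    simp only
    congr 1
    refine Finset.prod_congr rfl fun i _ => ?_
    apply Pool.Agent.H22.LF.sqw_congr
    rw [← hq, Int.modEq_iff_dvd]
    push_cast
    exact ⟨-1, by ring⟩
  have hWb : ∀ m, ‖W m‖ ≤ 1 := by
    intro m
    rw [hW]
    simp only [Complex.norm_real, Real.norm_eq_abs]
    rw [Finset.abs_prod]
    exact Finset.prod_le_one (fun _ _ => abs_nonneg _) fun _ _ => Pool.Agent.H22.LF.abs_sqw_le _ _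
  have hf : ∀ m, ((fz β δ m : ℝ) : ℂ) = g m * W m + er m := by
    intro m
    rw [her]
    ring
  have her0 : ∀ m, m < 1 → er m = ((fz β δ m : ℝ) : ℂ) := by
    intro m hm
    rw [her]
    simp only
    rw [hg0 m hm, zero_mul, sub_zero]
  have her1 : ∀ n : ℕ, 1 ≤ n → ‖er (n : ℤ)‖ =
      |fm β δ n - (∏ i ∈ Finset.univ.filter (fun i => Odd (δ i)),
        lz ((n : ℤ) + β i)) * ∏ i, sqw w ((n : ℤ) + β i)| := by
    intro n hn
    have h2 : er (n : ℤ) = ((fm β δ n - (∏ i ∈ Finset.univ.filter (fun i => Odd (δ i)),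
        lz ((n : ℤ) + β i)) * ∏ i, sqw w ((n : ℤ) + β i) : ℝ) : ℂ) := by
      rw [her]
      simp only
      rw [hg1 _ (by omega), hW]
      simp only [hβ]
      rw [hprod]
      unfold gl fz fm
      push_cast
      rfl
    rw [h2, Complex.norm_real, Real.norm_eq_abs]
  -- the scales
  have hscale : ∀ N : ℕ, 0 < N → N₁ ≤ N →
      UU (J + 2) (C * N) (gl h1) ≤ ε → ¬ BadG β δ a₀ b₀ a b η N := by
    intro N hN hNN hU2
    have hNr : (0 : ℝ) < N := by exact_mod_cast hN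
    have hN0 : N₀ ≤ N := (le_max_left _ _).trans ((le_max_left _ _).trans (hN₁ ▸ hNN))
    have hN2 : N₂ ≤ N := (le_max_right _ _).trans ((le_max_left _ _).trans (hN₁ ▸ hNN))
    have hNH : (H : ℝ) ≤ η / 8 * N := by
      have h2 : ⌈8 * (H : ℝ) / η⌉₊ ≤ N := (le_max_right _ _).trans (hN₁ ▸ hNN)
      have h3 : 8 * (H : ℝ) / η ≤ N := (Nat.le_ceil _).trans (by exact_mod_cast h2)
      rw [div_le_iff₀ hη] at h3
      linarith
    have hUg2 : UU (J + 2) (C * N) g ≤ ε := by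
      rw [UU_congr (J + 2) (C * N) g (gl h1) hg1]
      exact hU2
    refine not_bad hN hη hq0 (fun n => W (n : ℤ)) hu1 (fun n => hWb _) g W er hg0
      (fun _ => rfl) hf ?_ ?_
    · intro t ht
      have hd := dot_le b₀ t ht
      have hE : ∑ n ∈ Finset.Icc 1 (C * N), ‖er (n : ℤ)‖ ≤ η / 8 * N := by
        have h2 := hw (C * N) (hN0.trans (Nat.le_mul_of_pos_left _ hC0))
        have h3 : ∑ n ∈ Finset.Icc 1 (C * N), ‖er (n : ℤ)‖ =
            ∑ n ∈ Finset.Icc 1 (C * N), |fm β δ n -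
              (∏ i ∈ Finset.univ.filter (fun i => Odd (δ i)), lz ((n : ℤ) + β i)) *
                ∏ i, sqw w ((n : ℤ) + β i)| :=
          Finset.sum_congr rfl fun n hn => her1 n (Finset.mem_Icc.1 hn).1
        rw [h3]
        refine h2.trans (le_of_eq ?_)
        push_cast
        field_simp
      have h4 := error_le C N H a₀ (dot b₀ t) ha₀ (fun m => ‖er m‖) (η / 8 * N) (fun _ => norm_nonneg _)
        (by
          have h5 : ((C * N : ℕ) : ℤ) = (2 * |a₀| + ∑ i, |b₀ i|) * N := by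
            rw [hCz]
            push_cast
            ring
          rw [h5]
          have h6 : (2 * |a₀| + ∑ i, |b₀ i|) * (N : ℤ) =
            |a₀| * N + |a₀| * N + (∑ i, |b₀ i|) * N := by ring
          rw [h6]
          have h7 : 0 ≤ |a₀| * (N : ℤ) := by positivity
          linarith)
        (by
          intro m hm
          rw [her0 m hm, Complex.norm_real, Real.norm_eq_abs]
          exact abs_fz_le β δ m)
        (by
          intro m hm
          by_cases h1m : m < 1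
          · rw [her0 m h1m, hβ, fz_eq_zero h δ hδ i₀ m (by rw [← hH]; exact hm)]
            simp
          · omega)
        hE
      refine h4.trans ?_
      have : 0 ≤ η * N := by positivity
      linarith
    · intro F θ hF
      have hUg3 : UU (J + 2) (C * N) (fun n => ((gr n : ℝ) : ℂ)) ≤ ε := by
        rw [hg] at hUg2
        exact hUg2
      have h8 := hLI' N hN2 gr hgrb hgr0 hUg3 F θ hF
      rw [hg]
      exact h8
  -- the end
  refine ⟨max (K1 * C) (⌈Real.exp (2 * N₁ / ρ)⌉₊),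
    lt_of_lt_of_le (Nat.mul_pos hK1 hC0) (le_max_left _ _), fun x y hx hxy => ?_⟩
  obtain ⟨K, hK⟩ : ∃ K : ℕ, K = max (K1 * C) (⌈Real.exp (2 * N₁ / ρ)⌉₊) := ⟨_, rfl⟩
  rw [← hK] at hxy ⊢
  have hK1C : K1 * C ≤ K := by
    rw [hK]
    exact le_max_left _ _
  have hK1K : K1 ≤ K := (Nat.le_mul_of_pos_right _ hC0).trans hK1C
  have hCK : C ≤ K := (Nat.le_mul_of_pos_left _ hK1).trans hK1C
  have hxy1 : K1 * x ≤ y := (Nat.mul_le_mul_right x hK1K).trans hxy
  have hx0 : (0 : ℝ) < x := by exact_mod_cast hx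
  have hlog : (N₁ : ℝ) ≤ ρ / 2 * Real.log ((y : ℝ) / x) := by
    have g1 : ⌈Real.exp (2 * N₁ / ρ)⌉₊ * x ≤ y := by
      refine (Nat.mul_le_mul_right x ?_).trans hxy
      rw [hK]
      exact le_max_right _ _
    have g2 : ((⌈Real.exp (2 * N₁ / ρ)⌉₊ : ℕ) : ℝ) * x ≤ y := by exact_mod_cast g1
    have g3 : Real.exp (2 * N₁ / ρ) ≤ (y : ℝ) / x := by
      rw [le_div_iff₀ hx0]
      exact (mul_le_mul_of_nonneg_right (Nat.le_ceil _) hx0.le).trans g2
    have g4 : 2 * (N₁ : ℝ) / ρ ≤ Real.log ((y : ℝ) / x) := by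
      rw [Real.le_log_iff_exp_le (lt_of_lt_of_le (Real.exp_pos _) g3)]
      exact g3
    rw [div_le_iff₀ hρ] at g4
    linarith
  have hlog0 : 0 ≤ Real.log ((y : ℝ) / x) := by
    have g1 : 0 ≤ ρ / 2 * Real.log ((y : ℝ) / x) := (Nat.cast_nonneg _).trans hlog
    exact nonneg_of_mul_nonneg_right g1 (by positivity)
  set S := (Finset.Icc x y).filter (fun N : ℕ => NoObs β δ K N ∧ BadG β δ a₀ b₀ a b η N) with hS
  set B2 := (Finset.Icc x y).filter (fun N : ℕ => AS h1 K1 (C * N) ∧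
    ε ≤ UU (J + 2) (C * N) (gl h1)) with hB2
  have hsub : S ⊆ Finset.Ico 1 (N₁ + 1) ∪ B2 := by
    intro N hN
    rw [hS, Finset.mem_filter, Finset.mem_Icc] at hN
    obtain ⟨⟨hxN, hNy⟩, hno, hbad⟩ := hN
    rw [Finset.mem_union, Finset.mem_Ico]
    by_cases hNN : N < N₁ + 1
    · exact Or.inl ⟨by omega, hNN⟩
    · right
      rw [not_lt] at hNN
      have hN0 : 0 < N := by omega
      have hor : ε < UU (J + 2) (C * N) (gl h1) := by
        by_contra hcon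
        push Not at hcon
        exact hscale N hN0 (by omega) hcon hbad
      rw [hB2, Finset.mem_filter, Finset.mem_Icc]
      exact ⟨⟨hxN, hNy⟩, AS_of h δ h1 hprod K K1 N (C * N) hK1 hK1K
        (Nat.le_mul_of_pos_left _ hC0) (Nat.mul_le_mul_right _ hCK) hno, hor.le⟩
  have a1 : ∑ N ∈ S, (1 / (N : ℝ)) ≤
      ∑ N ∈ Finset.Ico 1 (N₁ + 1), (1 / (N : ℝ)) + ∑ N ∈ B2, (1 / (N : ℝ)) := by
    refine (Finset.sum_le_sum_of_subset_of_nonneg hsub fun _ _ _ => by positivity).trans ?_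
    have u1 : ∀ A A' : Finset ℕ, ∑ N ∈ A ∪ A', (1 / (N : ℝ)) ≤
        ∑ N ∈ A, (1 / (N : ℝ)) + ∑ N ∈ A', (1 / (N : ℝ)) := by
      intro A A'
      rw [← Finset.sum_union_inter]
      exact le_add_of_nonneg_right (Finset.sum_nonneg fun _ _ => by positivity)
    exact u1 _ _
  have a2 : ∑ N ∈ Finset.Ico 1 (N₁ + 1), (1 / (N : ℝ)) ≤ N₁ := by
    have h3 : ∑ N ∈ Finset.Ico 1 (N₁ + 1), (1 / (N : ℝ)) ≤
        ∑ N ∈ Finset.Ico 1 (N₁ + 1), (1 : ℝ) := by
      refine Finset.sum_le_sum fun N hN => ?_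
      rw [Finset.mem_Ico] at hN
      have h4 : (1 : ℝ) ≤ N := by exact_mod_cast hN.1
      rw [div_le_one (by linarith)]
      exact h4
    simpa using h3
  have a4 : ∑ N ∈ B2, (1 / (N : ℝ)) ≤ C * (ρ / (4 * C) * Real.log ((y : ℝ) / x)) := by
    have h5 := sum_dil x y C hC0 (fun M => AS h1 K1 M ∧ ε ≤ UU (J + 2) M (gl h1))
    refine h5.trans (mul_le_mul_of_nonneg_left ?_ hCr.le)
    have h6 := hCH' (C * x) (C * y) (Nat.mul_pos hC0 hx) (dil_bd C hxy1)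
    have h7 : (((C * y : ℕ) : ℝ)) / ((C * x : ℕ) : ℝ) = (y : ℝ) / x := by
      push_cast
      rw [mul_div_mul_left _ _ hCr.ne']
    rw [h7] at h6
    exact h6
  have a5 : ρ / (4 * C) ≤ ρ / 4 := by
    rw [div_le_div_iff₀ (by positivity) (by norm_num)]
    have : (1 : ℝ) ≤ C := by exact_mod_cast hC0
    nlinarith
  have a6 : C * (ρ / (4 * C) * Real.log ((y : ℝ) / x)) = ρ / 4 * Real.log ((y : ℝ) / x) := by
    field_simp
  have a7 := mul_le_mul_of_nonneg_right a5 hlog0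
  rw [a6] at a4
  linarith

end Pool.Agent.H18.GUG
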